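import Pool.Agent.V8H47.LB.Defs
import Pool.Agent.V8H47.LB.PDefs

/-!
# Alternating linear space machines and their computation trees

The machines work on the cells of the input with endmarkers (see `Pool.Agent.V8H47.LB.PDefs` for
`Tape`). Besides its usual (existential) steps, a machine may branch universally into two copies of
itself, with two new states and the same tape; such a branching carries a label from an alphabet
`X`. An accepting computation is a finite tree.
-/

namespace Pool.Agent.V8H47.TS

open Pool.Agent.V8H47.MH Pool.Agent.V8H47.LB

/-- Finite binary trees; the inner nodes are labelled with elements of `X`. -/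
inductive BTree (X : Type)
  | leaf : BTree X
  | node : X → BTree X → BTree X → BTree X

/-- The Strahler number of a binary tree. -/
def BTree.strahler {X : Type} : BTree X → ℕ
  | BTree.leaf => 1
  | BTree.node _ l r => if l.strahler = r.strahler then l.strahler + 1
      else max l.strahler r.strahler

/-- The value of a tree in a (deterministic, bottom-up) tree automaton. -/
def BTree.eval {X V : Type} (a : V) (f : X → V → V → V) : BTree X → V
  | BTree.leaf => a
  | BTree.node x l r => f x (l.eval a f) (r.eval a f)

/-- `T` is recognized by a finite tree automaton. -/
def IsRegularTree {X : Type} (T : Set (BTree X)) : Prop :=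
  ∃ (V : Type) (_ : Finite V) (a : V) (f : X → V → V → V) (F : Set V), T = {t | t.eval a f ∈ F}

/-- An alternating linear space machine with input alphabet `α`. -/
structure AM (α X : Type) where
  /-- the states -/
  Q : Type
  finQ : Finite Q
  /-- the work alphabet -/
  B : Type
  finB : Finite B
  /-- the letter written in all the cells at the beginning -/
  blank : B
  /-- the initial state -/
  init : Q
  /-- the accepting states -/
  acc : Set Q
  /-- the possible actions -/
  step : Q → Sym α → B → Set (Q × B × Dir)
  /-- the possible universal branchings: a label and two states -/
  fork : Q → Sym α → B → Set (X × Q × Q)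

/-- `M.Run w q T t`: on the input word `w`, the binary tree `t` is the tree of the universal
branchings of an accepting computation which begins in the state `q` with the tape `T`. -/
inductive AM.Run {α X : Type} (M : AM α X) (w : List α) :
    M.Q → Tape w.length M.B → BTree X → Prop
  | leaf {q : M.Q} {T : Tape w.length M.B} : q ∈ M.acc → Run M w q T BTree.leaf
  | step {q : M.Q} {T : Tape w.length M.B} {u : M.Q × M.B × Dir} {t : BTree X} :
      u ∈ M.step q (symAt w T.pos) (T.cell T.pos) → Run M w u.1 (T.act u.2.1 u.2.2) t →
      Run M w q T t
  | fork {q : M.Q} {T : Tape w.length M.B} {x : X} {q₁ q₂ : M.Q} {t₁ t₂ : BTree X} :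
      (x, q₁, q₂) ∈ M.fork q (symAt w T.pos) (T.cell T.pos) → Run M w q₁ T t₁ →
      Run M w q₂ T t₂ → Run M w q T (BTree.node x t₁ t₂)

/-- The language accepted by `M` when only accepting computations with a tree in `T` are
admitted. -/
def AM.lang {α X : Type} (M : AM α X) (T : Set (BTree X)) : Language α :=
  {w | ∃ t ∈ T, M.Run w M.init ⟨⟨0, by omega⟩, fun _ => M.blank⟩ t}

/-- The languages accepted by alternating linear space machines with computation trees in `T`. -/
def altIn {X : Type} (T : Set (BTree X)) (α : Type) : Set (Language α) :=
  {L | ∃ M : AM α X, M.lang T = L}

/-- The languages accepted by alternating linear space machines. -/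
def altLin (α : Type) : Set (Language α) := altIn (Set.univ : Set (BTree Unit)) α

end Pool.Agent.V8H47.TS
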