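import Pool.Agent.V8H47.TS.Thin

/-!
# The dichotomy for the shapes of computation trees
-/

namespace Pool.Agent.V8H47.TS

open Relation Pool.Agent.V8H47.MH Pool.Agent.V8H47.LB

variable {α X V : Type}

/-! ### Machines without universal branchings -/

/-- a nondeterministic linear space machine as an alternating one -/
def ofLT (M : LT α Empty) : AM α Unit where
  Q := M.Q
  finQ := M.finQ
  B := M.B
  finB := M.finB
  blank := M.blank
  init := M.init
  acc := M.acc
  step q s b := {y | (y.1, y.2.1, y.2.2, none) ∈ M.step q s b}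
  fork _ _ _ := ∅

variable {M : LT α Empty}

/-- the same configuration -/
def Same {w : List α} (c : LCfg M.Q M.B Empty) (q : M.Q) (T : Tape w.length M.B) : Prop :=
  c.q = q ∧ c.pos = T.pos ∧ (∀ i : Fin (w.length + 2), c.tp i = T.cell i)

theorem same_act {w : List α} {c : LCfg M.Q M.B Empty} {q q' : M.Q} {T : Tape w.length M.B}
    (h : Same c q T) (b : M.B) (d : Dir) (o : List Empty) :
    Same (⟨q', d.move w.length c.pos, Function.update c.tp c.pos b, o⟩ : LCfg M.Q M.B Empty) q'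
      (T.act b d) := by
  obtain ⟨h1, h2, h3⟩ := h
  refine ⟨rfl, ?_, fun i => ?_⟩
  · simp only [Tape.act, h2]
  · simp only [Tape.act]
    by_cases hi : i = T.pos
    · subst hi
      rw [h2, Function.update_self, Function.update_self]
    · rw [Function.update_of_ne hi, h2, Function.update_of_ne (fun h => hi (Fin.ext h)), h3]

theorem none_of_empty (o : Option Empty) : o = none := by
  cases o with
  | none => rfl
  | some a => exact a.elim

theorem run_of_out {w : List α} {c : LCfg M.Q M.B Empty}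
    (h : ∃ c', ReflTransGen (M.Step w) c c' ∧ c'.q ∈ M.acc) (q : M.Q) (T : Tape w.length M.B)
    (hs : Same c q T) : ∃ t, (ofLT M).Run w q T t := by
  obtain ⟨c', h1, h2⟩ := h
  induction h1 using ReflTransGen.head_induction_on generalizing q T with
  | refl => exact ⟨_, .leaf (by rw [← hs.1]; exact h2)⟩
  | @head b c hb _ ih =>
    obtain ⟨t, ht, rfl⟩ := hb
    have h3 := ih t.1 _ (same_act hs t.2.1 t.2.2.1 _)
    obtain ⟨s, h4⟩ := h3
    refine ⟨s, AM.Run.step (M := ofLT M) (u := (t.1, t.2.1, t.2.2.1)) ?_ h4⟩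
    change (t.1, t.2.1, t.2.2.1, (none : Option Empty)) ∈ M.step q (symAt w T.pos) (T.cell T.pos)
    obtain ⟨h5, h6, h7⟩ := hs
    rw [← h5, ← h7, ← h6, ← none_of_empty t.2.2.2]
    exact ht

theorem out_of_run {w : List α} {q : (ofLT M).Q} {T : Tape w.length (ofLT M).B} {t : BTree Unit}
    (h : (ofLT M).Run w q T t) : ∀ c : LCfg M.Q M.B Empty, Same c q T →
    ∃ c', ReflTransGen (M.Step w) c c' ∧ c'.q ∈ M.acc := by
  induction h with
  | leaf hq => exact fun c hc => ⟨c, .refl, by rw [hc.1]; exact hq⟩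
  | @step q T u t hu _ ih =>
    intro c hc
    obtain ⟨c', h1, h2⟩ := ih ⟨u.1, u.2.2.move w.length c.pos, Function.update c.tp c.pos u.2.1,
      c.out ++ (none : Option Empty).toList⟩ (same_act hc u.2.1 u.2.2 _)
    refine ⟨c', ReflTransGen.head ?_ h1, h2⟩
    refine ⟨(u.1, u.2.1, u.2.2, none), ?_, rfl⟩
    obtain ⟨h5, h6, h7⟩ := hc
    rw [h5, h6, h7]
    exact hu
  | fork hu _ _ _ _ => exact hu.elim

theorem ofLT_lang : (ofLT M).lang Set.univ = {w | ∃ v, M.Out w v} := by
  refine Set.ext fun w => ?_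
  have h0 : Same M.start M.init (⟨⟨0, by omega⟩, fun _ => M.blank⟩ : Tape w.length M.B) :=
    ⟨rfl, rfl, fun _ => rfl⟩
  constructor
  · rintro ⟨t, _, h⟩
    obtain ⟨c', h1, h2⟩ := out_of_run h _ h0
    exact ⟨_, c', h1, h2, rfl⟩
  · rintro ⟨v, c, h1, h2, _⟩
    obtain ⟨t, ht⟩ := run_of_out ⟨c, h1, h2⟩ _ _ h0
    exact ⟨t, trivial, ht⟩

theorem leaf_mem_vals (a : V) (f : X → V → V → V) : ∀ t : BTree X, a ∈ vals a f t
  | BTree.leaf => rfl
  | BTree.node _ l _ => Or.inr (Or.inl (leaf_mem_vals a f l))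

theorem nspace_subset {T : Set (BTree X)} (hT : IsRegularTree T) (hne : T.Nonempty) :
    nspace α ⊆ altIn T α := by
  rintro L ⟨M, rfl⟩
  obtain ⟨V, _, a, f, F, rfl⟩ := hT
  obtain ⟨t, ht⟩ := hne
  obtain ⟨P, h7, _, h9⟩ := exists_ctx a f true t (leaf_mem_vals a f t)
  refine ⟨simAM (ofLT M) HT.leaf P BTree.leaf, ?_⟩
  rw [sim_lang (Or.inl (fun _ _ _ => rfl)) h7 (by
    change P.ev a f a a ∈ F
    rw [h9]; exact ht)]
  exact ofLT_lang

/-- **Bounded Strahler number.** -/
theorem altIn_thin {T : Set (BTree X)} (hT : IsRegularTree T) (hne : T.Nonempty)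
    (hS : ∃ k, ∀ t ∈ T, t.strahler ≤ k) : altIn T α = nspace α :=
  Set.Subset.antisymm (altIn_subset_nspace hT hS) (nspace_subset hT hne)

/-! ### Examples -/

/-- the Strahler number, up to `k + 1` -/
def sStep (k : ℕ) (u v : Fin (k + 2)) : Fin (k + 2) :=
  ⟨min (if (u : ℕ) = v then (u : ℕ) + 1 else max (u : ℕ) v) (k + 1), by omega⟩

theorem sStep_eval (k : ℕ) : ∀ t : BTree X,
    (BTree.eval (V := Fin (k + 2)) ⟨1, by omega⟩ (fun _ => sStep k) t).val =
      min t.strahler (k + 1)
  | BTree.leaf => by simp [BTree.eval, BTree.strahler]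
  | BTree.node x l r => by
    have h1 := sStep_eval k l
    have h2 := sStep_eval k r
    simp only [BTree.eval, BTree.strahler, sStep, h1, h2]
    split_ifs <;> omega

/-- the trees of Strahler number at most `k` -/
theorem isRegular_strahler (X : Type) (k : ℕ) :
    IsRegularTree {t : BTree X | t.strahler ≤ k} := by
  refine ⟨Fin (k + 2), inferInstance, ⟨1, by omega⟩, fun _ => sStep k, {v | (v : ℕ) ≤ k}, ?_⟩
  refine Set.ext fun t => ?_
  change t.strahler ≤ k ↔
    (BTree.eval (V := Fin (k + 2)) ⟨1, by omega⟩ (fun _ => sStep k) t).val ≤ k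
  rw [sStep_eval]
  omega

end Pool.Agent.V8H47.TS
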