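import Pool.Agent.V8H47.TS.Tree

/-!
# Simulation of arbitrary universal branchings by contexts
-/

namespace Pool.Agent.V8H47.TS

open Pool.Agent.V8H47.MH Pool.Agent.V8H47.LB

variable {α X V : Type}

theorem act_stay {n : ℕ} {B : Type} (T : Tape n B) : T.act (T.cell T.pos) Dir.S = T := by
  obtain ⟨p, c⟩ := T
  simp only [Tape.act, Dir.move, Function.update_eq_self]

/-! ### Combination with a tree automaton -/

section prod

variable (M : AM α X) (a : V) (f : X → V → V → V) (F : Set V)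

/-- the product with a tree automaton, which is guessed from the root -/
def prodAM [Finite V] : AM α Unit where
  Q := Option (M.Q × V)
  finQ := by have := M.finQ; infer_instance
  B := M.B
  finB := M.finB
  blank := M.blank
  init := none
  acc := {q | ∃ q', q = some (q', a) ∧ q' ∈ M.acc}
  step q s b := match q with
    | none => {y | ∃ v ∈ F, y = (some (M.init, v), b, Dir.S)}
    | some (q, v) => {y | ∃ t ∈ M.step q s b, y = (some (t.1, v), t.2.1, t.2.2)}
  fork q s b := match q with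
    | none => ∅
    | some (q, v) => {y | ∃ x q1 q2 v1 v2, (x, q1, q2) ∈ M.fork q s b ∧ f x v1 v2 = v ∧
        y = ((), some (q1, v1), some (q2, v2))}

variable {M a f F} [Finite V]

theorem prod_sound {w : List α} {q : (prodAM M a f F).Q} {T : Tape w.length M.B}
    {t : BTree Unit} (h : (prodAM M a f F).Run w q T t) : ∀ q' v, q = some (q', v) →
    ∃ s, M.Run w q' T s ∧ s.eval a f = v := by
  induction h with
  | leaf hq =>
    rintro q' v rfl
    obtain ⟨q'', h1, h2⟩ := hq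
    cases h1
    exact ⟨BTree.leaf, .leaf h2, rfl⟩
  | step hu _ ih =>
    rintro q' v rfl
    obtain ⟨t', ht', rfl⟩ := hu
    obtain ⟨s, h1, h2⟩ := ih _ _ rfl
    exact ⟨s, .step ht' h1, h2⟩
  | fork hu _ _ ih1 ih2 =>
    rintro q' v rfl
    obtain ⟨x, q1, q2, v1, v2, h1, h2, h3⟩ := hu
    cases h3
    obtain ⟨s1, a1, a2⟩ := ih1 _ _ rfl
    obtain ⟨s2, b1, b2⟩ := ih2 _ _ rfl
    exact ⟨BTree.node x s1 s2, .fork h1 a1 b1, by simp only [BTree.eval, a2, b2, h2]⟩

theorem prod_complete {w : List α} {q : M.Q} {T : Tape w.length M.B} {t : BTree X}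
    (h : M.Run w q T t) :
    ∃ s, (prodAM M a f F).Run w (some (q, t.eval a f) : Option (M.Q × V)) T s := by
  induction h with
  | leaf hq => exact ⟨_, .leaf ⟨_, rfl, hq⟩⟩
  | step hu _ ih =>
    obtain ⟨s, hs⟩ := ih
    exact ⟨s, AM.Run.step (M := prodAM M a f F) ⟨_, hu, rfl⟩ hs⟩
  | fork hu _ _ ih1 ih2 =>
    obtain ⟨s1, h1⟩ := ih1
    obtain ⟨s2, h2⟩ := ih2
    exact ⟨_, AM.Run.fork (M := prodAM M a f F) ⟨_, _, _, _, _, hu, rfl, rfl⟩ h1 h2⟩

theorem prod_lang : (prodAM M a f F).lang Set.univ = M.lang {t | t.eval a f ∈ F} := by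
  refine Set.ext fun w => ?_
  constructor
  · rintro ⟨t, _, ht⟩
    cases ht with
    | leaf h =>
      obtain ⟨q', h1, _⟩ := h
      exact absurd h1 (by simp [prodAM])
    | step hu ht =>
      obtain ⟨v, hv, rfl⟩ := hu
      obtain ⟨s, h1, h2⟩ := prod_sound ht _ _ rfl
      refine ⟨s, ?_, ?_⟩
      · change s.eval a f ∈ F
        rw [h2]; exact hv
      · have e := act_stay (⟨⟨0, by omega⟩, fun _ => M.blank⟩ : Tape w.length M.B)
        exact e ▸ h1
    | fork hu _ _ => exact hu.elim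
  · rintro ⟨t, ht, hr⟩
    obtain ⟨s, hs⟩ := prod_complete (a := a) (f := f) (F := F) hr
    refine ⟨s, trivial, AM.Run.step (M := prodAM M a f F) ⟨_, ht, rfl⟩ ?_⟩
    have e := act_stay (⟨⟨0, by omega⟩, fun _ => M.blank⟩ : Tape w.length M.B)
    exact e.symm ▸ hs

end prod

theorem altIn_subset {T : Set (BTree X)} (hT : IsRegularTree T) : altIn T α ⊆ altLin α := by
  rintro L ⟨M, rfl⟩
  obtain ⟨V, _, a, f, F, rfl⟩ := hT
  exact ⟨prodAM M a f F, prod_lang⟩

/-! ### Simulation -/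

section sim

variable (M : AM α Unit) (D P : HT X) (t0 : BTree X)

/-- the subtrees which are generated -/
def parts : Set (HT X) := HT.subs D ∪ (HT.subs P ∪ HT.subs (HT.ofTree t0))

theorem finite_parts : (parts D P t0).Finite :=
  (HT.finite_subs _).union ((HT.finite_subs _).union (HT.finite_subs _))

variable {D P t0} in
theorem parts_closed {x : X} {l r : HT X} (h : HT.node x l r ∈ parts D P t0) :
    l ∈ parts D P t0 ∧ r ∈ parts D P t0 := by
  rcases h with h | h | h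
  · exact ⟨Or.inl (HT.subs_closed _ h).1, Or.inl (HT.subs_closed _ h).2⟩
  · exact ⟨Or.inr (Or.inl (HT.subs_closed _ h).1), Or.inr (Or.inl (HT.subs_closed _ h).2)⟩
  · exact ⟨Or.inr (Or.inr (HT.subs_closed _ h).1), Or.inr (Or.inr (HT.subs_closed _ h).2)⟩

theorem D_mem : D ∈ parts D P t0 := Or.inl (HT.self_mem_subs _)
theorem P_mem : P ∈ parts D P t0 := Or.inr (Or.inl (HT.self_mem_subs _))
theorem t0_mem : HT.ofTree t0 ∈ parts D P t0 := Or.inr (Or.inr (HT.self_mem_subs _))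

/-- the states of the simulation -/
abbrev SQ : Type := M.Q ⊕ ({u : HT X // u ∈ parts D P t0} × M.Q × M.Q)

/-- the simulating machine -/
def simAM : AM α X where
  Q := SQ M D P t0
  finQ := by
    have := M.finQ
    have : Finite {u : HT X // u ∈ parts D P t0} := (finite_parts D P t0).to_subtype
    infer_instance
  B := M.B
  finB := M.finB
  blank := M.blank
  init := Sum.inr (⟨P, P_mem D P t0⟩, M.init, M.init)
  acc := {q | ∃ q1 q2 h, q = Sum.inr (⟨HT.leaf, h⟩, q1, q2)}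
  step q s b := match q with
    | Sum.inl q => {y | (∃ t ∈ M.step q s b, y = (Sum.inl t.1, t.2.1, t.2.2)) ∨
        (∃ q1 q2, ((), q1, q2) ∈ M.fork q s b ∧
          y = (Sum.inr (⟨D, D_mem D P t0⟩, q1, q2), b, Dir.S)) ∨
        (q ∈ M.acc ∧ y = (Sum.inr (⟨HT.ofTree t0, t0_mem D P t0⟩, q, q), b, Dir.S))}
    | Sum.inr (u, q1, q2) => {y | ∃ h, u.1 = HT.hole h ∧
        y = (Sum.inl (if h then q1 else q2), b, Dir.S)}
  fork q s b := match q with
    | Sum.inl _ => ∅
    | Sum.inr (u, q1, q2) => {y | ∃ (x : X) (l r : HT X) (hl : l ∈ parts D P t0)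
        (hr : r ∈ parts D P t0), u.1 = HT.node x l r ∧
        y = (x, Sum.inr (⟨l, hl⟩, q1, q2), Sum.inr (⟨r, hr⟩, q1, q2))}

variable {M D P t0}

theorem sim_sound (hD : (∀ q s b, M.fork q s b = ∅) ∨ (HT.Occ true D ∧ HT.Occ false D))
    {w : List α} {q : (simAM M D P t0).Q} {T : Tape w.length (simAM M D P t0).B} {t : BTree X}
    (h : (simAM M D P t0).Run w q T t) :
    (∀ q' : M.Q, q = (Sum.inl q' : SQ M D P t0) → ∃ s : BTree Unit, M.Run w q' T s) ∧
      ∀ (u : {u : HT X // u ∈ parts D P t0}) (q1 q2 : M.Q),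
        q = (Sum.inr (u, q1, q2) : SQ M D P t0) →
        (HT.Occ true u.1 → ∃ s : BTree Unit, M.Run w q1 T s) ∧
        (HT.Occ false u.1 → ∃ s : BTree Unit, M.Run w q2 T s) := by
  induction h with
  | leaf hq =>
    obtain ⟨q1, q2, h, rfl⟩ := hq
    refine ⟨fun q' h' => (Sum.inr_ne_inl h').elim, fun u q1' q2' h' => ?_⟩
    have h2 := congrArg Prod.fst (Sum.inr.inj h')
    have h3 : u = ⟨HT.leaf, h⟩ := h2.symm
    subst h3
    exact ⟨fun h => h.elim, fun h => h.elim⟩
  | step hu _ ih =>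
    refine ⟨?_, ?_⟩
    · rintro q' rfl
      rcases hu with ⟨t', ht', rfl⟩ | ⟨q1, q2, h1, rfl⟩ | ⟨h1, rfl⟩
      · obtain ⟨s, hs⟩ := ih.1 _ rfl
        exact ⟨s, .step ht' hs⟩
      · rcases hD with hD | hD
        · rw [hD] at h1
          exact h1.elim
        · obtain ⟨h2, h3⟩ := ih.2 _ _ _ rfl
          obtain ⟨s1, h4⟩ := h2 hD.1
          obtain ⟨s2, h5⟩ := h3 hD.2
          simp only at h4 h5
          rw [act_stay] at h4 h5
          exact ⟨_, .fork h1 h4 h5⟩
      · exact ⟨_, .leaf h1⟩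
    · rintro u q1 q2 rfl
      obtain ⟨h, h1, rfl⟩ := hu
      obtain ⟨s, hs⟩ := ih.1 _ rfl
      simp only at hs
      rw [act_stay] at hs
      rw [h1]
      cases h with
      | true => exact ⟨fun _ => ⟨s, hs⟩, fun h2 => by simp [HT.Occ] at h2⟩
      | false => exact ⟨fun h2 => by simp [HT.Occ] at h2, fun _ => ⟨s, hs⟩⟩
  | fork hu _ _ ih1 ih2 =>
    refine ⟨?_, ?_⟩
    · rintro q' rfl
      exact hu.elim
    · rintro u q1 q2 rfl
      obtain ⟨x, l, r, hl, hr, h1, h2⟩ := hu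
      cases h2
      obtain ⟨a1, a2⟩ := ih1.2 _ _ _ rfl
      obtain ⟨b1, b2⟩ := ih2.2 _ _ _ rfl
      rw [h1]
      exact ⟨fun h => h.elim a1 b1, fun h => h.elim a2 b2⟩

theorem sim_gen {w : List α} {q1 q2 : M.Q} {T : Tape w.length M.B} {s1 s2 : BTree X} :
    ∀ (u : HT X) (hu : u ∈ parts D P t0),
    (HT.Occ true u → (simAM M D P t0).Run w (Sum.inl q1 : SQ M D P t0) T s1) →
    (HT.Occ false u → (simAM M D P t0).Run w (Sum.inl q2 : SQ M D P t0) T s2) →
    (simAM M D P t0).Run w (Sum.inr (⟨u, hu⟩, q1, q2) : SQ M D P t0) T (u.subst s1 s2)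
  | HT.leaf => fun hu _ _ => .leaf ⟨_, _, _, rfl⟩
  | HT.hole b => fun hu h1 h2 => by
    refine AM.Run.step (M := simAM M D P t0) ⟨b, rfl, rfl⟩ ?_
    simp only
    have e := act_stay T
    cases b with
    | true => exact e.symm ▸ h1 rfl
    | false => exact e.symm ▸ h2 rfl
  | HT.node x l r => fun hu h1 h2 => by
    have hc := parts_closed hu
    exact AM.Run.fork (M := simAM M D P t0) ⟨x, l, r, hc.1, hc.2, rfl, rfl⟩
      (sim_gen l hc.1 (fun h => h1 (Or.inl h)) (fun h => h2 (Or.inl h)))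
      (sim_gen r hc.2 (fun h => h1 (Or.inr h)) (fun h => h2 (Or.inr h)))

theorem sim_complete {a : V} {f : X → V → V → V}
    (hD : (∀ q s b, M.fork q s b = ∅) ∨ D.ev a f (t0.eval a f) (t0.eval a f) = t0.eval a f)
    {w : List α} {q : M.Q} {T : Tape w.length M.B} {t : BTree Unit} (h : M.Run w q T t) :
    ∃ s, (simAM M D P t0).Run w (Sum.inl q : SQ M D P t0) T s ∧ s.eval a f = t0.eval a f := by
  induction h with
  | @leaf q T hq =>
    refine ⟨t0, ?_, rfl⟩
    refine AM.Run.step (M := simAM M D P t0) (Or.inr (Or.inr ⟨hq, rfl⟩)) ?_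
    simp only
    have e := act_stay T
    have h1 := sim_gen (M := M) (D := D) (P := P) (t0 := t0) (w := w) (q1 := q) (q2 := q) (T := T)
      (s1 := t0) (s2 := t0) (HT.ofTree t0) (t0_mem D P t0)
      (fun h => absurd h (HT.ofTree_occ _ _)) (fun h => absurd h (HT.ofTree_occ _ _))
    rw [HT.ofTree_subst] at h1
    exact e.symm ▸ h1
  | step hu _ ih =>
    obtain ⟨s, h1, h2⟩ := ih
    exact ⟨s, AM.Run.step (M := simAM M D P t0) (Or.inl ⟨_, hu, rfl⟩) h1, h2⟩
  | @fork q T x q1 q2 t1 t2 hu _ _ ih1 ih2 =>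
    obtain ⟨s1, a1, a2⟩ := ih1
    obtain ⟨s2, b1, b2⟩ := ih2
    rcases hD with hD | hD
    · rw [hD] at hu
      exact hu.elim
    · refine ⟨D.subst s1 s2, ?_, ?_⟩
      · refine AM.Run.step (M := simAM M D P t0) (Or.inr (Or.inl ⟨q1, q2, hu, rfl⟩)) ?_
        simp only
        have e := act_stay T
        exact e.symm ▸ sim_gen D (D_mem D P t0) (fun _ => a1) (fun _ => b1)
      · rw [HT.eval_subst, a2, b2]
        exact hD

theorem sim_lang {a : V} {f : X → V → V → V} {F : Set V}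
    (hD : (∀ q s b, M.fork q s b = ∅) ∨ (HT.Occ true D ∧ HT.Occ false D ∧
      D.ev a f (t0.eval a f) (t0.eval a f) = t0.eval a f))
    (hP : HT.Occ true P) (hF : P.ev a f (t0.eval a f) (t0.eval a f) ∈ F) :
    (simAM M D P t0).lang {t | t.eval a f ∈ F} = M.lang Set.univ := by
  refine Set.ext fun w => ?_
  constructor
  · rintro ⟨t, _, ht⟩
    obtain ⟨s, hs⟩ := ((sim_sound (hD.imp id (fun h => ⟨h.1, h.2.1⟩)) ht).2 _ _ _ rfl).1 hP
    exact ⟨s, trivial, hs⟩
  · rintro ⟨t, _, ht⟩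
    obtain ⟨s, h1, h2⟩ := sim_complete (D := D) (P := P) (t0 := t0)
      (hD.imp id (fun h => h.2.2)) ht
    refine ⟨P.subst s s, ?_, sim_gen P (P_mem D P t0) (fun _ => h1) (fun _ => h1)⟩
    change (P.subst s s).eval a f ∈ F
    rw [HT.eval_subst, h2]
    exact hF

end sim

/-- **Unbounded Strahler number.** -/
theorem altIn_thick {T : Set (BTree X)} (hT : IsRegularTree T)
    (hS : ¬ ∃ k, ∀ t ∈ T, t.strahler ≤ k) : altIn T α = altLin α := by
  refine Set.Subset.antisymm (altIn_subset hT) ?_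
  rintro L ⟨M, rfl⟩
  obtain ⟨V, _, a, f, F, rfl⟩ := hT
  push Not at hS
  obtain ⟨t, ht, h1⟩ := hS (Nat.card V)
  have h2 : Mix a f t := by
    by_contra hc
    have := (strahler_le a f t hc).trans (Set.ncard_le_card _)
    omega
  obtain ⟨u, h3, D, h4, h5, h6⟩ := mix_spec a f t h2
  obtain ⟨P, h7, _, h9⟩ := exists_ctx a f true t h3
  exact ⟨simAM M D P u, sim_lang (Or.inr ⟨h4, h5, h6⟩) h7 (by rw [h9]; exact ht)⟩

end Pool.Agent.V8H47.TS
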