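import Pool.Agent.V8H47.TS.Sim
import Pool.Agent.V8H47.LB.Sys

/-!
# Computation trees of bounded Strahler number
-/

namespace Pool.Agent.V8H47.TS

open Relation Pool.Agent.V8H47.MH Pool.Agent.V8H47.LB

variable {α X V : Type}

section thin

variable (M : AM α X) (a : V) (f : X → V → V → V)

/-- accepted with a tree of Strahler number at most `k` and with value `c.2` -/
def Acc (k : ℕ) (w : List α) (c : M.Q × V) (T : Tape w.length M.B) : Prop :=
  ∃ t, M.Run w c.1 T t ∧ t.eval a f = c.2 ∧ t.strahler ≤ k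

/-- steps; at a universal branching one of the two copies has small Strahler number -/
def GS (k : ℕ) (w : List α) (c c' : (M.Q × V) × Tape w.length M.B) : Prop :=
  (∃ u ∈ M.step c.1.1 (symAt w c.2.pos) (c.2.cell c.2.pos), c'.1.1 = u.1 ∧ c'.1.2 = c.1.2 ∧
    c'.2 = c.2.act u.2.1 u.2.2) ∨
  (∃ d : M.Q × V, (∃ x, ((x, c'.1.1, d.1) ∈ M.fork c.1.1 (symAt w c.2.pos) (c.2.cell c.2.pos) ∧
      f x c'.1.2 d.2 = c.1.2) ∨
      ((x, d.1, c'.1.1) ∈ M.fork c.1.1 (symAt w c.2.pos) (c.2.cell c.2.pos) ∧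
      f x d.2 c'.1.2 = c.1.2)) ∧ c'.2 = c.2 ∧ Acc M a f k w d c.2)

variable {M a f}

theorem one_le_strahler : ∀ t : BTree X, 1 ≤ t.strahler
  | BTree.leaf => le_rfl
  | BTree.node _ l r => by
    have := one_le_strahler l
    simp only [BTree.strahler]
    split_ifs <;> omega

theorem acc_of_gs {k : ℕ} {w : List α} {c c' : (M.Q × V) × Tape w.length M.B}
    (h : ReflTransGen (GS M a f k w) c c') (hacc : c'.1.1 ∈ M.acc) (ha : c'.1.2 = a) :
    Acc M a f (k + 1) w c.1 c.2 := by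
  induction h using ReflTransGen.head_induction_on with
  | refl => exact ⟨BTree.leaf, .leaf hacc, ha.symm, by simp [BTree.strahler]⟩
  | @head b c hs _ ih =>
    obtain ⟨t, h1, h2, h3⟩ := ih
    rcases hs with ⟨u, hu, e1, e2, e3⟩ | ⟨d, ⟨x, hx⟩, e3, t', h1', h2', h3'⟩
    · rw [e1, e3] at h1
      rw [e2] at h2
      exact ⟨t, .step hu h1, h2, h3⟩
    · rw [e3] at h1
      rcases hx with ⟨hx, e⟩ | ⟨hx, e⟩
      · refine ⟨BTree.node x t t', .fork hx h1 h1', ?_, ?_⟩
        · simp only [BTree.eval, h2, h2', e]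
        · simp only [BTree.strahler]
          split_ifs <;> omega
      · refine ⟨BTree.node x t' t, .fork hx h1' h1, ?_, ?_⟩
        · simp only [BTree.eval, h2, h2', e]
        · simp only [BTree.strahler]
          split_ifs <;> omega

theorem gs_of_run {k : ℕ} {w : List α} {q : M.Q} {T : Tape w.length M.B} {t : BTree X}
    (h : M.Run w q T t) : t.strahler ≤ k + 1 →
    ∃ c' : (M.Q × V) × Tape w.length M.B,
      ReflTransGen (GS M a f k w) ((q, t.eval a f), T) c' ∧ c'.1.1 ∈ M.acc ∧ c'.1.2 = a := by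
  induction h with
  | leaf hq => exact fun _ => ⟨_, .refl, hq, rfl⟩
  | @step q T u t hu _ ih =>
    intro hk
    obtain ⟨c', h1, h2, h3⟩ := ih hk
    have hs : GS M a f k w ((q, t.eval a f), T) ((u.1, t.eval a f), T.act u.2.1 u.2.2) :=
      Or.inl ⟨_, hu, rfl, rfl, rfl⟩
    exact ⟨c', h1.head hs, h2, h3⟩
  | @fork q T x q1 q2 t1 t2 hu r1 r2 ih1 ih2 =>
    intro hk
    simp only [BTree.strahler] at hk
    by_cases h : t2.strahler ≤ k
    · obtain ⟨c', h1, h2, h3⟩ := ih1 (by split_ifs at hk <;> omega)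
      have hs : GS M a f k w ((q, (BTree.node x t1 t2).eval a f), T) ((q1, t1.eval a f), T) :=
        Or.inr ⟨(q2, t2.eval a f), ⟨x, Or.inl ⟨hu, rfl⟩⟩, rfl, t2, r2, rfl, h⟩
      exact ⟨c', h1.head hs, h2, h3⟩
    · have h' : t1.strahler ≤ k := by split_ifs at hk <;> omega
      obtain ⟨c', h1, h2, h3⟩ := ih2 (by split_ifs at hk <;> omega)
      have hs : GS M a f k w ((q, (BTree.node x t1 t2).eval a f), T) ((q2, t2.eval a f), T) :=
        Or.inr ⟨(q1, t1.eval a f), ⟨x, Or.inr ⟨hu, rfl⟩⟩, rfl, t1, r1, rfl, h'⟩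
      exact ⟨c', h1.head hs, h2, h3⟩

theorem acc_succ {k : ℕ} {w : List α} {c : M.Q × V} {T : Tape w.length M.B} :
    Acc M a f (k + 1) w c T ↔ ∃ c' : (M.Q × V) × Tape w.length M.B,
      ReflTransGen (GS M a f k w) (c, T) c' ∧ c'.1.1 ∈ M.acc ∧ c'.1.2 = a := by
  constructor
  · rintro ⟨t, h1, h2, h3⟩
    obtain ⟨c', h4⟩ := gs_of_run (a := a) (f := f) h1 h3
    rw [h2] at h4
    exact ⟨c', h4⟩
  · rintro ⟨c', h1, h2, h3⟩
    exact acc_of_gs h1 h2 h3

/-- a tape as a word -/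
def encT {n : ℕ} {B : Type} (T : Tape n B) : Fin (n + 2) → B × Bool := enc T.pos T.cell

theorem encT_inj {n : ℕ} {B : Type} {T T' : Tape n B} (h : encT T = encT T') : T = T' := by
  obtain ⟨h1, h2⟩ := enc_inj h
  exact Tape.ext h1 h2

theorem encT_act {n : ℕ} {B : Type} (T : Tape n B) (b : B) (d : Dir) :
    encT (T.act b d) = enc (mv d T.pos) (Function.update T.cell T.pos b) := rfl

variable (M a f) in
/-- one step, on words -/
def PP (k : ℕ) (c c' : M.Q × V) (w : List α)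
    (x : Tp w (Unit × ((M.B × Bool) × (M.B × Bool)))) : Prop :=
  ∃ T T' : Tape w.length M.B, (fun i => (x i).2.1) = encT T ∧ (fun i => (x i).2.2) = encT T' ∧
    GS M a f k w (c, T) (c', T')

theorem PP_isLS [Finite V] {k : ℕ}
    (ih : ∀ c : M.Q × V, IsLS (fun (w : List α) (x : Tp w (M.B × Bool)) =>
      ∃ T : Tape w.length M.B, x = encT T ∧ Acc M a f k w c T)) (c c' : M.Q × V) :
    IsLS (PP M a f k c c') := by
  have := M.finB
  have := M.finQ
  have : Nonempty M.B := ⟨M.blank⟩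
  have h1 : IsLS (fun (w : List α) (x : Tp w (Unit × ((M.B × Bool) × (M.B × Bool)))) =>
      (c'.2 = c.2) ∧ ∃ (p : Fin (w.length + 2)) (y : Tp w M.B),
        ∃ t ∈ {t : M.B × Dir | ((c'.1, t.1, t.2) : M.Q × M.B × Dir) ∈
          M.step c.1 (symAt w p) (y p)},
        (fun i => (x i).2.1) = enc p y ∧
        (fun i => (x i).2.2) = enc (mv t.2 p) (Function.update y p t.1)) :=
    (IsLS.const _).and ((IsLS.step (fun s b => {t : M.B × Dir |
      ((c'.1, t.1, t.2) : M.Q × M.B × Dir) ∈ M.step c.1 s b})).reindex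
      (fun a : Unit × ((M.B × Bool) × (M.B × Bool)) => a.2))
  have h2 : IsLS (fun (w : List α) (x : Tp w (Unit × ((M.B × Bool) × (M.B × Bool)))) =>
      ∃ d : M.Q × V, (∃ (p : Fin (w.length + 2)) (y : Tp w M.B),
        ∃ t ∈ {t : M.B × Dir | t = (y p, Dir.S) ∧
          ∃ x, ((x, c'.1, d.1) ∈ M.fork c.1 (symAt w p) (y p) ∧ f x c'.2 d.2 = c.2) ∨
            ((x, d.1, c'.1) ∈ M.fork c.1 (symAt w p) (y p) ∧ f x d.2 c'.2 = c.2)},
        (fun i => (x i).2.1) = enc p y ∧
        (fun i => (x i).2.2) = enc (mv t.2 p) (Function.update y p t.1)) ∧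
        ∃ T : Tape w.length M.B, (fun i => (x i).2.1) = encT T ∧ Acc M a f k w d T) :=
    IsLS.iExists (fun d => ((IsLS.step (fun s b => {t : M.B × Dir | t = (b, Dir.S) ∧
          ∃ x, ((x, c'.1, d.1) ∈ M.fork c.1 s b ∧ f x c'.2 d.2 = c.2) ∨
            ((x, d.1, c'.1) ∈ M.fork c.1 s b ∧ f x d.2 c'.2 = c.2)})).reindex
      (fun a : Unit × ((M.B × Bool) × (M.B × Bool)) => a.2)).and
      ((ih d).reindex (fun a : Unit × ((M.B × Bool) × (M.B × Bool)) => a.2.1)))
  refine (h1.or h2).congr (fun w x => ?_)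
  constructor
  · rintro (⟨e, p, y, t, ht, e1, e2⟩ | ⟨d, ⟨p, y, t, ⟨ht, x', hx⟩, e1, e2⟩, T, e3, hT⟩)
    · exact ⟨⟨p, y⟩, _, e1, e2.trans (encT_act ⟨p, y⟩ t.1 t.2).symm,
        Or.inl ⟨_, ht, rfl, e, rfl⟩⟩
    · have e4 : T = ⟨p, y⟩ := encT_inj (e3.symm.trans e1)
      subst e4
      refine ⟨⟨p, y⟩, ⟨p, y⟩, e1, ?_, Or.inr ⟨d, ⟨x', hx⟩, rfl, hT⟩⟩
      rw [e2, ht]
      simp only [Function.update_eq_self]
      rfl
  · rintro ⟨T, T', e1, e2, ⟨u, hu, e3, e4, e5⟩ | ⟨d, ⟨x', hx⟩, e3, hA⟩⟩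
    · simp only at e3 e4 e5 hu
      subst e5
      refine Or.inl ⟨e4, T.pos, T.cell, (u.2.1, u.2.2), ?_, e1, e2⟩
      change ((c'.1, u.2.1, u.2.2) : M.Q × M.B × Dir) ∈
        M.step c.1 (symAt w T.pos) (T.cell T.pos)
      rw [e3]
      exact hu
    · simp only at e3 hx hA
      subst e3
      refine Or.inr ⟨d, ⟨T'.pos, T'.cell, (T'.cell T'.pos, Dir.S), ⟨rfl, x', hx⟩, e1, ?_⟩,
        T', e1, hA⟩
      rw [e2, encT]
      simp only [Function.update_eq_self]
      rfl

theorem gstep_iff {k : ℕ} {w : List α} {c c' : M.Q × V} {T : Tape w.length M.B}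
    {z : Tp w (M.B × Bool)} :
    ReflTransGen (GStep (PP M a f k) w (fun _ => ())) (c, encT T) (c', z) ↔
      ∃ T' : Tape w.length M.B, z = encT T' ∧ ReflTransGen (GS M a f k w) (c, T) (c', T') := by
  constructor
  · intro h
    have key : ∀ d, ReflTransGen (GStep (PP M a f k) w (fun _ => ())) (c, encT T) d →
        ∃ T' : Tape w.length M.B, d.2 = encT T' ∧
          ReflTransGen (GS M a f k w) (c, T) (d.1, T') := by
      intro d hd
      induction hd with
      | refl => exact ⟨T, rfl, .refl⟩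
      | @tail b d _ hs ih =>
        obtain ⟨T1, h1, h2⟩ := ih
        obtain ⟨T2, T3, h3, h4, h5⟩ := hs
        simp only at h3 h4
        have e : T2 = T1 := encT_inj (h3.symm.trans h1)
        subst e
        exact ⟨T3, h4, h2.tail h5⟩
    exact key _ h
  · rintro ⟨T', rfl, h⟩
    have key : ∀ d, ReflTransGen (GS M a f k w) (c, T) d →
        ReflTransGen (GStep (PP M a f k) w (fun _ => ())) (c, encT T) (d.1, encT d.2) := by
      intro d hd
      induction hd with
      | refl => exact .refl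
      | @tail b d _ hs ih => exact ih.tail ⟨b.2, d.2, rfl, rfl, hs⟩
    exact key _ h

theorem isLS_tape {B : Type} : IsLS (fun (w : List α) (x : Tp w (B × Bool)) =>
    ∃ T : Tape w.length B, x = encT T) := by
  refine ((IsLS.hot (α := α)).reindex (fun x : B × Bool => x.2)).congr (fun w x => ?_)
  constructor
  · rintro ⟨p, hp⟩
    exact ⟨⟨p, fun i => (x i).1⟩, funext fun i => Prod.ext rfl (congrFun hp i)⟩
  · rintro ⟨T, rfl⟩
    exact ⟨T.pos, rfl⟩

/-- **Acceptance with bounded Strahler number is verified in linear space.** -/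
theorem acc_isLS [Finite V] : ∀ (k : ℕ) (c : M.Q × V),
    IsLS (fun (w : List α) (x : Tp w (M.B × Bool)) =>
      ∃ T : Tape w.length M.B, x = encT T ∧ Acc M a f k w c T) := by
  have := M.finB
  have := M.finQ
  have : Nonempty M.B := ⟨M.blank⟩
  intro k
  induction k with
  | zero =>
    intro c
    refine (IsLS.const False).congr (fun w x => ?_)
    simp only [false_iff]
    rintro ⟨T, _, t, _, _, h⟩
    have := one_le_strahler t
    omega
  | succ k ih =>
    intro c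
    have h1 : IsLS (fun (w : List α) (x : Tp w (M.B × Bool)) =>
        (∃ T : Tape w.length M.B, x = encT T) ∧ ∃ c' : M.Q × V, (c'.1 ∈ M.acc ∧ c'.2 = a) ∧
          ∃ z : Tp w (M.B × Bool), ReflTransGen (GStep (PP M a f k) w (fun _ => ()))
            (c, x) (c', z)) :=
      isLS_tape.and (IsLS.iExists (fun c' => (IsLS.const _).and
        (IsLS.ex ((IsLS.tc (A := Unit) (K := M.B × Bool) (fun t t' => PP_isLS ih t t')
          c c').reindex (fun x : (M.B × Bool) × (M.B × Bool) => ((), x))))))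
    refine h1.congr (fun w x => ?_)
    constructor
    · rintro ⟨⟨T, rfl⟩, c', hc', z, hz⟩
      obtain ⟨T', _, h⟩ := gstep_iff.1 hz
      exact ⟨T, rfl, acc_succ.2 ⟨_, h, hc'⟩⟩
    · rintro ⟨T, rfl, h⟩
      obtain ⟨⟨c', T'⟩, h1, h2⟩ := acc_succ.1 h
      exact ⟨⟨T, rfl⟩, c', h2, encT T', gstep_iff.2 ⟨T', rfl, h1⟩⟩

end thin

/-- the initial tape -/
theorem isLS_start {B : Type} [Finite B] (b : B) : IsLS (fun (w : List α)
    (x : Tp w (B × Bool)) => x = encT (⟨⟨0, by omega⟩, fun _ => b⟩ : Tape w.length B)) := by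
  refine (IsLS.letter (fun s (a : B × Bool) => (s = Sym.left ∧ a = (b, true)) ∨
    (s ≠ Sym.left ∧ a = (b, false)))).congr (fun w x => ?_)
  constructor
  · intro h
    funext i
    rcases h i with ⟨h1, h2⟩ | ⟨h1, h2⟩
    · rw [h2, encT, enc]
      have : i = ⟨0, by omega⟩ := Fin.ext (symAt_left.1 h1)
      simp [this]
    · rw [h2, encT, enc]
      rw [Ne, symAt_left] at h1
      have : ¬ i = ⟨0, by omega⟩ := fun h => h1 (congrArg Fin.val h)
      simp only [this, decide_false]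
  · rintro rfl i
    by_cases h : (i : ℕ) = 0
    · left
      refine ⟨symAt_left.2 h, ?_⟩
      rw [encT, enc]
      have : i = ⟨0, by omega⟩ := Fin.ext h
      simp [this]
    · right
      refine ⟨by rw [Ne, symAt_left]; exact h, ?_⟩
      rw [encT, enc]
      have : ¬ i = ⟨0, by omega⟩ := fun h' => h (congrArg Fin.val h')
      simp only [this, decide_false]

theorem altIn_subset_nspace {T : Set (BTree X)} (hT : IsRegularTree T)
    (hS : ∃ k, ∀ t ∈ T, t.strahler ≤ k) : altIn T α ⊆ nspace α := by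
  rintro L ⟨M, rfl⟩
  obtain ⟨V, _, a, f, F, rfl⟩ := hT
  obtain ⟨k, hk⟩ := hS
  have := M.finB
  have : Nonempty M.B := ⟨M.blank⟩
  have key : IsLS (fun (w : List α) (_ : Tp w Unit) => ∃ v : V, v ∈ F ∧
      ∃ z : Tp w (M.B × Bool),
        z = encT (⟨⟨0, by omega⟩, fun _ => M.blank⟩ : Tape w.length M.B) ∧
        ∃ T : Tape w.length M.B, z = encT T ∧ Acc M a f k w (M.init, v) T) :=
    IsLS.iExists (fun v => (IsLS.const _).and (IsLS.ex
      (((isLS_start M.blank).and (acc_isLS k (M.init, v))).reindex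
        (fun x : Unit × (M.B × Bool) => x.2))))
  refine (congrArg (fun L : Language α => L ∈ nspace α) (?_ : _ = _)).mpr key.nspace
  refine Set.ext fun w => ?_
  constructor
  · rintro ⟨t, ht, h⟩
    exact ⟨_, ht, _, rfl, _, rfl, t, h, rfl, hk t ht⟩
  · rintro ⟨v, hv, z, hz, T, hT, t, h1, h2, _⟩
    have e : T = ⟨⟨0, by omega⟩, fun _ => M.blank⟩ := encT_inj (hT.symm.trans hz)
    subst e
    refine ⟨t, ?_, h1⟩
    change t.eval a f ∈ F
    rw [h2]
    exact hv

end Pool.Agent.V8H47.TS
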