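import Pool.Agent.V8H47.TS.Defs

/-!
# Trees with holes and the Strahler number
-/

namespace Pool.Agent.V8H47.TS

/-- trees with two kinds of holes -/
inductive HT (X : Type)
  | leaf : HT X
  | hole : Bool → HT X
  | node : X → HT X → HT X → HT X

variable {X V : Type}

namespace HT

/-- fill the holes -/
def subst (s t : BTree X) : HT X → BTree X
  | leaf => BTree.leaf
  | hole b => if b then s else t
  | node x l r => BTree.node x (subst s t l) (subst s t r)

/-- the value, when the values of the holes are given -/
def ev (a : V) (f : X → V → V → V) (s t : V) : HT X → V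
  | leaf => a
  | hole b => if b then s else t
  | node x l r => f x (ev a f s t l) (ev a f s t r)

/-- some hole of kind `b` occurs -/
def Occ (b : Bool) : HT X → Prop
  | leaf => False
  | hole c => c = b
  | node _ l r => Occ b l ∨ Occ b r

/-- the subtrees -/
def subs : HT X → Set (HT X)
  | leaf => {leaf}
  | hole b => {hole b}
  | node x l r => insert (node x l r) (subs l ∪ subs r)

theorem finite_subs : ∀ u : HT X, (subs u).Finite
  | leaf => Set.finite_singleton _
  | hole _ => Set.finite_singleton _
  | node _ l r => ((finite_subs l).union (finite_subs r)).insert _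

theorem self_mem_subs : ∀ u : HT X, u ∈ subs u
  | leaf => rfl
  | hole _ => rfl
  | node _ _ _ => Set.mem_insert _ _

theorem subs_closed : ∀ (u : HT X) {x : X} {l r : HT X}, node x l r ∈ subs u →
    l ∈ subs u ∧ r ∈ subs u
  | leaf, _, _, _, h => by cases h
  | hole _, _, _, _, h => by cases h
  | node y l' r', x, l, r, h => by
    rcases h with h | h | h
    · cases h
      exact ⟨Or.inr (Or.inl (self_mem_subs _)), Or.inr (Or.inr (self_mem_subs _))⟩
    · exact ⟨Or.inr (Or.inl (subs_closed l' h).1), Or.inr (Or.inl (subs_closed l' h).2)⟩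
    · exact ⟨Or.inr (Or.inr (subs_closed r' h).1), Or.inr (Or.inr (subs_closed r' h).2)⟩

theorem eval_subst (a : V) (f : X → V → V → V) (s t : BTree X) : ∀ u : HT X,
    (subst s t u).eval a f = ev a f (s.eval a f) (t.eval a f) u
  | leaf => rfl
  | hole b => by cases b <;> rfl
  | node x l r => by
    simp only [subst, ev, BTree.eval, eval_subst a f s t l, eval_subst a f s t r]

/-- a tree without holes -/
def ofTree : BTree X → HT X
  | BTree.leaf => leaf
  | BTree.node x l r => node x (ofTree l) (ofTree r)

theorem ofTree_occ (b : Bool) : ∀ t : BTree X, ¬ Occ b (ofTree t)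
  | BTree.leaf => fun h => h
  | BTree.node _ l r => fun h => h.elim (ofTree_occ b l) (ofTree_occ b r)

theorem ofTree_subst (s t : BTree X) : ∀ u : BTree X, subst s t (ofTree u) = u
  | BTree.leaf => rfl
  | BTree.node x l r => by simp only [ofTree, subst, ofTree_subst s t l, ofTree_subst s t r]

theorem ev_ofTree (a : V) (f : X → V → V → V) (s t : V) : ∀ u : BTree X,
    ev a f s t (ofTree u) = u.eval a f
  | BTree.leaf => rfl
  | BTree.node x l r => by
    simp only [ofTree, ev, BTree.eval, ev_ofTree a f s t l, ev_ofTree a f s t r]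

end HT

/-! ### Values of subtrees -/

section values

variable (a : V) (f : X → V → V → V)

/-- the values of the subtrees -/
def vals : BTree X → Set V
  | BTree.leaf => {a}
  | BTree.node x l r => insert ((BTree.node x l r).eval a f) (vals l ∪ vals r)

theorem eval_mem_vals : ∀ t : BTree X, t.eval a f ∈ vals a f t
  | BTree.leaf => rfl
  | BTree.node _ _ _ => Set.mem_insert _ _

/-- some value occurs at the root, in the left and in the right part -/
def Mix : BTree X → Prop
  | BTree.leaf => False
  | BTree.node x l r => ((BTree.node x l r).eval a f ∈ vals a f l ∧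
      (BTree.node x l r).eval a f ∈ vals a f r) ∨ Mix l ∨ Mix r

theorem strahler_le [Finite V] : ∀ t : BTree X, ¬ Mix a f t →
    t.strahler ≤ (vals a f t).ncard
  | BTree.leaf => fun _ => by simp [BTree.strahler, vals]
  | BTree.node x l r => fun h => by
    simp only [Mix, not_or, not_and_or] at h
    obtain ⟨h1, h2, h3⟩ := h
    have i1 := strahler_le l h2
    have i2 := strahler_le r h3
    have s1 : (vals a f l).ncard ≤ (vals a f (BTree.node x l r)).ncard :=
      Set.ncard_le_ncard (fun v hv => Or.inr (Or.inl hv)) (Set.toFinite _)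
    have s2 : (vals a f r).ncard ≤ (vals a f (BTree.node x l r)).ncard :=
      Set.ncard_le_ncard (fun v hv => Or.inr (Or.inr hv)) (Set.toFinite _)
    simp only [BTree.strahler]
    rcases h1 with h1 | h1
    · have s3 : (vals a f l).ncard < (vals a f (BTree.node x l r)).ncard :=
        Set.ncard_lt_ncard ⟨fun v hv => Or.inr (Or.inl hv), fun hc =>
          h1 (hc (eval_mem_vals a f _))⟩ (Set.toFinite _)
      split_ifs with he <;> omega
    · have s3 : (vals a f r).ncard < (vals a f (BTree.node x l r)).ncard :=
        Set.ncard_lt_ncard ⟨fun v hv => Or.inr (Or.inr hv), fun hc =>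
          h1 (hc (eval_mem_vals a f _))⟩ (Set.toFinite _)
      split_ifs with he <;> omega

/-- a context with one hole -/
theorem exists_ctx (b : Bool) {v : V} : ∀ t : BTree X, v ∈ vals a f t →
    ∃ C : HT X, HT.Occ b C ∧ (∀ c, HT.Occ c C → c = b) ∧
      C.ev a f v v = t.eval a f
  | BTree.leaf => fun h => by
    have : v = a := h
    subst this
    exact ⟨HT.hole b, rfl, fun c hc => hc.symm, by simp [HT.ev, BTree.eval]⟩
  | BTree.node x l r => fun h => by
    rcases h with h | h | h
    · subst h
      exact ⟨HT.hole b, rfl, fun c hc => hc.symm, by simp [HT.ev]⟩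
    · obtain ⟨C, h1, h2, h3⟩ := exists_ctx b l h
      refine ⟨HT.node x C (HT.ofTree r), Or.inl h1, ?_, ?_⟩
      · rintro c (hc | hc)
        · exact h2 c hc
        · exact absurd hc (HT.ofTree_occ c r)
      · simp only [HT.ev, h3, HT.ev_ofTree, BTree.eval]
    · obtain ⟨C, h1, h2, h3⟩ := exists_ctx b r h
      refine ⟨HT.node x (HT.ofTree l) C, Or.inr h1, ?_, ?_⟩
      · rintro c (hc | hc)
        · exact absurd hc (HT.ofTree_occ c l)
        · exact h2 c hc
      · simp only [HT.ev, h3, HT.ev_ofTree, BTree.eval]

/-- a tree with a branching of the kind `Mix` contains a value with a context with two holes -/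
theorem mix_spec : ∀ t : BTree X, Mix a f t → ∃ u : BTree X, u.eval a f ∈ vals a f t ∧
    ∃ D : HT X, HT.Occ true D ∧ HT.Occ false D ∧
      D.ev a f (u.eval a f) (u.eval a f) = u.eval a f
  | BTree.leaf => fun h => h.elim
  | BTree.node x l r => fun h => by
    rcases h with ⟨h1, h2⟩ | h | h
    · obtain ⟨C1, a1, _, a3⟩ := exists_ctx a f true l h1
      obtain ⟨C2, b1, _, b3⟩ := exists_ctx a f false r h2
      refine ⟨BTree.node x l r, eval_mem_vals a f _, HT.node x C1 C2, Or.inl a1, Or.inr b1, ?_⟩
      simp only [HT.ev]
      rw [a3, b3]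
      rfl
    · obtain ⟨u, h1, h2⟩ := mix_spec l h
      exact ⟨u, Or.inr (Or.inl h1), h2⟩
    · obtain ⟨u, h1, h2⟩ := mix_spec r h
      exact ⟨u, Or.inr (Or.inr h1), h2⟩

end values

end Pool.Agent.V8H47.TS
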